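import Pool.Agent.X13.TP.Rank3

/-!
# The rank statistics `rk` and `rk₂` on partitions with two part sizes, modulo 4
-/

namespace Pool.Agent.Results.MP_cd2397_nt.RankCongruences

open Finset Pool.Agent.X13.TP

/-- The partitions `(λ₁^{m₁} λ₂^{m₂})` of `N` with exactly two part sizes `λ₁ > λ₂ ≥ 1`,
stored as `(λ₁, m₁, λ₂, m₂)`. -/
def P2 (N : ℕ) : Finset (ℕ × ℕ × ℕ × ℕ) :=
  (range (N + 1) ×ˢ range (N + 1) ×ˢ range (N + 1) ×ˢ range (N + 1)).filter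
    fun v => v.2.2.1 < v.1 ∧ 1 ≤ v.2.2.1 ∧ 1 ≤ v.2.1 ∧ 1 ≤ v.2.2.2 ∧
      v.1 * v.2.1 + v.2.2.1 * v.2.2.2 = N

/-- Dyson's rank `λ₁ - m₁ - m₂` -/
def rk (v : ℕ × ℕ × ℕ × ℕ) : ℤ := v.1 - v.2.1 - v.2.2.2

/-- `rk₂ = λ₁ + λ₂ - 2 m₁ - m₂` -/
def rk₂ (v : ℕ × ℕ × ℕ × ℕ) : ℤ := v.1 + v.2.2.1 - 2 * v.2.1 - v.2.2.2

/-- `N_s^ε(N)`, the number of partitions in `P2 N` on which the statistic `s` is `≡ ε (mod 2)` -/
def Nc (s : ℕ × ℕ × ℕ × ℕ → ℤ) (ε : ℤ) (N : ℕ) : ℕ := ((P2 N).filter fun v => s v % 2 = ε).card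

/-- the five progressions -/
def S : Finset (ℕ × ℕ) := {(16, 14), (36, 30), (72, 42), (196, 70), (252, 114)}

theorem P2_eq (N : ℕ) : P2 N = (R N).filter fun v => v.2.2.1 < v.1 := by
  ext ⟨a, x, b, y⟩
  rw [mem_filter, mem_R]
  unfold P2
  rw [mem_filter]
  simp only [mem_product, mem_range]
  constructor
  · rintro ⟨-, h1, h2, h3, h4, h5⟩
    exact ⟨⟨by omega, h3, h2, h4, h5⟩, h1⟩
  · rintro ⟨h, h1⟩
    have h' := mem_R.mpr h
    unfold R at h'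
    rw [mem_filter] at h'
    simp only [mem_product, mem_range] at h'
    exact ⟨h'.1, h1, h.2.2.1, h.2.1, h.2.2.2.1, h.2.2.2.2⟩

theorem Nc_rk2 (N : ℕ) : Nc rk₂ 0 N
    = ((R N).filter fun v => v.2.2.1 < v.1 ∧ (v.1 + v.2.2.1 + v.2.2.2) % 2 = 0).card := by
  unfold Nc
  rw [P2_eq, filter_filter]
  congr 1
  apply filter_congr
  rintro ⟨a, x, b, y⟩ _
  unfold rk₂
  simp only
  constructor
  · rintro ⟨h1, h2⟩; exact ⟨h1, by omega⟩
  · rintro ⟨h1, h2⟩; exact ⟨h1, by omega⟩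

theorem Nc_rk (N : ℕ) : Nc rk 0 N
    = ((R N).filter fun v => v.2.2.1 < v.1 ∧ (v.1 + v.2.1 + v.2.2.2) % 2 = 0).card := by
  unfold Nc
  rw [P2_eq, filter_filter]
  congr 1
  apply filter_congr
  rintro ⟨a, x, b, y⟩ _
  unfold rk
  simp only
  constructor
  · rintro ⟨h1, h2⟩; exact ⟨h1, by omega⟩
  · rintro ⟨h1, h2⟩; exact ⟨h1, by omega⟩

theorem Nc_add (s : ℕ × ℕ × ℕ × ℕ → ℤ) (N : ℕ) : Nc s 0 N + Nc s 1 N = nu 2 N := by
  rw [← card_P2, ← P2_eq]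
  unfold Nc
  have : (P2 N).filter (fun v => s v % 2 = 1) = (P2 N).filter (fun v => ¬ s v % 2 = 0) := by
    apply filter_congr
    intro v _
    omega
  rw [this, card_filter_add_card_filter_not]

/-- `σ(M) ≡ 0 (mod 8)` for `M ≡ 7 (mod 8)` -/
theorem sigma7 (M : ℕ) (hM : M % 8 = 7) : 8 ∣ ∑ a ∈ M.divisors, a := by
  rw [← ZMod.natCast_eq_zero_iff, Nat.cast_sum]
  refine sum_involution (fun a _ => M / a) ?_ ?_ ?_ ?_
  · intro a ha
    obtain ⟨c, hc⟩ := Nat.dvd_of_mem_divisors ha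
    have ha0 : 0 < a := Nat.pos_of_mem_divisors ha
    rw [hc, Nat.mul_div_cancel_left _ ha0]
    have h1 : ((a * c : ℕ) : ZMod 8) = ((7 : ℕ) : ZMod 8) := by
      rw [← hc]; exact (ZMod.natCast_eq_natCast_iff _ _ _).mpr hM
    push_cast at h1
    have : ∀ s t : ZMod 8, s * t = 7 → s + t = 0 := by decide
    exact this _ _ h1
  · intro a ha _ he
    obtain ⟨c, hc⟩ := Nat.dvd_of_mem_divisors ha
    have ha0 : 0 < a := Nat.pos_of_mem_divisors ha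
    rw [hc, Nat.mul_div_cancel_left _ ha0] at he
    subst he
    have h1 : ((c * c : ℕ) : ZMod 8) = ((7 : ℕ) : ZMod 8) := by
      rw [← hc]; exact (ZMod.natCast_eq_natCast_iff _ _ _).mpr hM
    push_cast at h1
    have : ∀ s : ZMod 8, s * s ≠ 7 := by decide
    exact this _ h1
  · intro a ha
    rw [Nat.mem_divisors]
    exact ⟨Nat.div_dvd_of_dvd (Nat.dvd_of_mem_divisors ha), by omega⟩
  · intro a ha
    exact Nat.div_div_self (Nat.dvd_of_mem_divisors ha) (by omega)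

theorem prog_16_14 (M : ℕ) (hM : M % 8 = 7) :
    4 ∣ ((R (2 * M)).filter fun v => v.2.2.1 < v.1 ∧ (v.1 + v.2.2.1 + v.2.2.2) % 2 = 0).card ∧
    4 ∣ nu 2 (2 * M) := by
  have h2 : ∀ u v : ℤ, u ^ 2 + v ^ 2 ≠ ((2 * M : ℕ) : ℤ) := by
    intro u v h
    have h4 : ((u ^ 2 + v ^ 2 : ℤ) : ZMod 8) = ((6 : ℤ) : ZMod 8) := by
      rw [h]
      exact (ZMod.intCast_eq_intCast_iff _ _ _).mpr (by
        show ((2 * M : ℕ) : ℤ) % ((8 : ℕ) : ℤ) = 6 % ((8 : ℕ) : ℤ)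
        push_cast; omega)
    push_cast at h4
    have : ∀ t y : ZMod 8, t ^ 2 + y ^ 2 ≠ 6 := by decide
    exact this _ _ h4
  have e : ((2 * M : ℕ) : ℤ) = 2 * (M : ℤ) := by push_cast; ring
  have hP : 2 ∣ (P ((2 * M : ℕ) : ℤ)).card := by
    rw [e] at h2 ⊢
    exact even_P' (M : ℤ) (by omega) h2
  have hF : 2 ∣ (F ((2 * M : ℕ) : ℤ)).card := by
    rw [e, F_empty7 (M : ℤ) (by omega)]
    exact dvd_zero 2
  obtain ⟨h3, h4, -⟩ := rank_main M (by omega) h2 hP hF (sigma7 M hM)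
  exact ⟨h3, h4⟩

theorem even_d (r : ℕ) (hsq : ∀ s : ℕ, s * s ≠ r) : 2 ∣ r.divisors.card := by
  have h1 := dd_eq r
  have h2 : Pool.Agent.X13.TP.sq r = 0 := by
    by_contra hne
    obtain ⟨a, -, ha⟩ := sq_ne hne
    exact hsq a ha
  rw [dd_card, h2] at h1
  omega

theorem even_sigma (r : ℕ) (hr : r % 2 = 1) (hsq : ∀ s : ℕ, s * s ≠ r) :
    2 ∣ ∑ a ∈ r.divisors, a := by
  have h1 := even_d r hsq
  rw [← ZMod.natCast_eq_zero_iff, Nat.cast_sum]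
  rw [← ZMod.natCast_eq_zero_iff, card_eq_sum_ones, Nat.cast_sum] at h1
  rw [← h1]
  refine sum_congr rfl fun a ha => ?_
  refine (ZMod.natCast_eq_natCast_iff _ _ _).mpr ?_
  obtain ⟨c, hc⟩ := Nat.dvd_of_mem_divisors ha
  show a % 2 = 1 % 2
  rw [hc, Nat.mul_mod] at hr
  rcases Nat.mod_two_eq_zero_or_one a with h | h
  · rw [h, zero_mul] at hr; norm_num at hr
  · rw [h]

/-- the progressions `2 p r` with `p = 3` or `p = 7` -/
theorem prog_p (p r : ℕ) (hp : p = 3 ∨ p = 7) (hr : r % 2 = 1) (hpr : ¬ p ∣ r)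
    (hsq : ∀ s : ℕ, s * s ≠ r) :
    4 ∣ ((R (2 * (p * r))).filter fun v => v.2.2.1 < v.1 ∧ (v.1 + v.2.2.1 + v.2.2.2) % 2 = 0).card ∧
    4 ∣ nu 2 (2 * (p * r)) ∧
    4 ∣ ((R (2 * (p * r))).filter fun v => v.2.2.1 < v.1 ∧ (v.1 + v.2.1 + v.2.2.2) % 2 = 0).card := by
  have hpp : p.Prime := by rcases hp with rfl | rfl <;> norm_num
  have hp4 : p % 4 = 3 := by rcases hp with rfl | rfl <;> norm_num
  have hpi : Prime (p : ℤ) := Nat.prime_iff_prime_int.mp hpp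
  have hpri : ¬ (p : ℤ) ∣ (r : ℤ) := by
    intro h; exact hpr (by exact_mod_cast h)
  have h2 : ∀ u v : ℤ, u ^ 2 + v ^ 2 ≠ 2 * (p : ℤ) * r :=
    not_two_squares p r hpi (by exact_mod_cast hpp.pos) (by omega) hpri
  have hP : 2 ∣ (P (2 * (p : ℤ) * r)).card :=
    even_P p r hpi (by exact_mod_cast hpp.pos) (by omega) (by omega) hpri h2
  have e : ((2 * (p * r) : ℕ) : ℤ) = 2 * (p : ℤ) * r := by push_cast; ring
  have e' : ((2 * (p * r) : ℕ) : ℤ) = 2 * ((p : ℤ) * r) := by push_cast; ring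
  have hsqZ : ∀ s : ℤ, s ^ 2 ≠ (r : ℤ) := by
    intro s hs
    apply hsq s.natAbs
    have h1 : ((s.natAbs * s.natAbs : ℕ) : ℤ) = (r : ℤ) := by
      rw [← hs]; push_cast; rw [← sq_abs s]; ring
    exact_mod_cast h1
  have hF : 2 ∣ (F ((2 * (p * r) : ℕ) : ℤ)).card := by
    rw [e']
    rcases hp with rfl | rfl
    · exact F_even_three r (by omega) (by exact_mod_cast hpri) hsqZ
    · have h7 := F_empty_seven (r : ℤ) (by omega) (by exact_mod_cast hpri)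
      push_cast
      rw [h7]
      exact dvd_zero 2
  have hr0 : 0 < r := by omega
  have hcop : Nat.Coprime p r := (Nat.Prime.coprime_iff_not_dvd hpp).mpr hpr
  have hM : (p * r) % 2 = 1 := by
    rw [Nat.mul_mod, hr, show p % 2 = 1 by omega]
  have hs : 8 ∣ ∑ a ∈ (p * r).divisors, a := by
    rw [Nat.Coprime.sum_divisors_mul hcop, Nat.Prime.sum_divisors hpp]
    obtain ⟨c, hc⟩ := even_sigma r hr hsq
    rcases hp with rfl | rfl
    · rw [hc]; exact ⟨c, by ring⟩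
    · exact ⟨_, rfl⟩
  have hd : 4 ∣ (p * r).divisors.card := by
    obtain ⟨c, hc⟩ := even_d r hsq
    rw [Nat.Coprime.card_divisors_mul hcop, hc]
    have : p.divisors.card = 2 := by
      rw [Nat.Prime.divisors hpp, card_pair hpp.one_lt.ne]
    rw [this]
    exact ⟨c, by ring⟩
  obtain ⟨h3, h4, h5⟩ := rank_main (p * r) hM (by rw [e]; exact h2) (by rw [e]; exact hP) hF hs
  exact ⟨h3, h4, h5 hd⟩

theorem nonsq (m : ℕ) [NeZero m] (c : ℕ) (hc : ∀ s : ZMod m, s * s ≠ (c : ZMod m)) (r : ℕ)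
    (hr : r % m = c % m) (s : ℕ) : s * s ≠ r := by
  intro h
  apply hc (s : ZMod m)
  rw [← Nat.cast_mul, h]
  exact (ZMod.natCast_eq_natCast_iff _ _ _).mpr hr

/-- the four progressions -/
theorem prog_rest (q : ℕ × ℕ) (hq : q ∈ S \ {(16, 14)}) (n : ℕ) :
    ∃ p r, q.1 * n + q.2 = 2 * (p * r) ∧ (p = 3 ∨ p = 7) ∧ r % 2 = 1 ∧ ¬ p ∣ r ∧
      ∀ s : ℕ, s * s ≠ r := by
  have : q = (36, 30) ∨ q = (72, 42) ∨ q = (196, 70) ∨ q = (252, 114) := by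
    unfold S at hq
    rw [mem_sdiff, mem_insert, mem_insert, mem_insert, mem_insert, mem_singleton,
      mem_singleton] at hq
    tauto
  rcases this with rfl | rfl | rfl | rfl
  · refine ⟨3, 6 * n + 5, by ring, Or.inl rfl, by omega, by omega, ?_⟩
    exact nonsq 3 2 (by decide) _ (by omega)
  · refine ⟨3, 12 * n + 7, by ring, Or.inl rfl, by omega, by omega, ?_⟩
    exact nonsq 4 3 (by decide) _ (by omega)
  · refine ⟨7, 14 * n + 5, by ring, Or.inr rfl, by omega, by omega, ?_⟩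
    exact nonsq 7 5 (by decide) _ (by omega)
  · refine ⟨3, 42 * n + 19, by ring, Or.inl rfl, by omega, by omega, ?_⟩
    exact nonsq 7 5 (by decide) _ (by omega)

/-- **Q1, both parts.** -/
theorem result :
    (∀ q ∈ S, ∀ n : ℕ, 4 ∣ Nc rk₂ 0 (q.1 * n + q.2) ∧ 4 ∣ Nc rk₂ 1 (q.1 * n + q.2)) ∧
    (∀ q ∈ S \ {(16, 14)}, ∀ n : ℕ, 4 ∣ Nc rk 0 (q.1 * n + q.2) ∧ 4 ∣ Nc rk 1 (q.1 * n + q.2)) := by
  constructor
  · intro q hq n
    have hadd := Nc_add rk₂ (q.1 * n + q.2)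
    by_cases h : q = (16, 14)
    · subst h
      have e : 16 * n + 14 = 2 * (8 * n + 7) := by ring
      obtain ⟨h1, h2⟩ := prog_16_14 (8 * n + 7) (by omega)
      simp only at hadd ⊢
      rw [e] at hadd ⊢
      rw [← Nc_rk2] at h1
      exact ⟨h1, by omega⟩
    · obtain ⟨p, r, e, hp, hr, hpr, hsq⟩ := prog_rest q (by
        rw [mem_sdiff, mem_singleton]; exact ⟨hq, h⟩) n
      obtain ⟨h1, h2, -⟩ := prog_p p r hp hr hpr hsq
      rw [e] at hadd ⊢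
      rw [← Nc_rk2] at h1
      exact ⟨h1, by omega⟩
  · intro q hq n
    have hadd := Nc_add rk (q.1 * n + q.2)
    obtain ⟨p, r, e, hp, hr, hpr, hsq⟩ := prog_rest q hq n
    obtain ⟨-, h2, h3⟩ := prog_p p r hp hr hpr hsq
    rw [e] at hadd ⊢
    rw [← Nc_rk] at h3
    exact ⟨h3, by omega⟩

end Pool.Agent.Results.MP_cd2397_nt.RankCongruences
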